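import Mathlib
import Pool.Agent.X51.GK1
import Pool.Agent.X51.GK3

/-!
Geometric realizations of `K_n` are given by the positions `P : Fin n → ℝ × ℝ` of the vertices.
If there is a vertex-injective geometric homomorphism from `A` to `B` and the two realizations are
not geometrically isomorphic, then the convex hull of `A` has fewer vertices than that of `B`.
-/

namespace Pool.Agent.Results.MP_1038e0_co.HullStrict

open Pool.Agent.X51.GK

/-- General position: the points are distinct and no three of them are collinear. -/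
def GenPos {n : ℕ} (P : Fin n → ℝ × ℝ) : Prop :=
  Function.Injective P ∧ ∀ i j k, i ≠ j → i ≠ k → j ≠ k →
    ¬ Collinear ℝ ({P i, P j, P k} : Set (ℝ × ℝ))

/-- The edges `ab` and `cd` of the straight-line drawing of `K_n` on the points `P` cross: they are
two different edges, and the drawn segments meet at a point other than a shared endpoint. -/
def Cross {n : ℕ} (P : Fin n → ℝ × ℝ) (a b c d : Fin n) : Prop :=
  a ≠ b ∧ c ≠ d ∧ s(a, b) ≠ s(c, d) ∧
    ∃ z ∈ segment ℝ (P a) (P b), z ∈ segment ℝ (P c) (P d) ∧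
      ∀ v, v ∈ s(a, b) → v ∈ s(c, d) → z ≠ P v

/-- A geometric homomorphism between two realizations of `K_n`: edges go to edges, and crossing
edges go to crossing edges. -/
def GeomHom {n : ℕ} (A B : Fin n → ℝ × ℝ) (f : Fin n → Fin n) : Prop :=
  (∀ u v, u ≠ v → f u ≠ f v) ∧
    ∀ x y u v, Cross A x y u v → Cross B (f x) (f y) (f u) (f v)

/-- Geometric isomorphism: a bijection under which edges cross if and only if their images do. -/
def GeomIso {n : ℕ} (A B : Fin n → ℝ × ℝ) : Prop :=
  ∃ f : Fin n → Fin n, Function.Bijective f ∧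
    ∀ x y u v, Cross A x y u v ↔ Cross B (f x) (f y) (f u) (f v)

/-- The strict order `≺` on realizations of `K_n`. -/
def Prec {n : ℕ} (A B : Fin n → ℝ × ℝ) : Prop :=
  (∃ f : Fin n → Fin n, Function.Injective f ∧ GeomHom A B f) ∧ ¬ GeomIso A B

/-- The number of vertices of the realization that are vertices of the convex hull. -/
noncomputable def hull {n : ℕ} (P : Fin n → ℝ × ℝ) : ℕ :=
  {i | P i ∈ (convexHull ℝ (Set.range P)).extremePoints ℝ}.ncard

lemma gp_of {n : ℕ} {P : Fin n → ℝ × ℝ} (h : GenPos P) : GP P :=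
  fun i j k hij hik hjk α β γ hs h0 => gp_of_not_collinear (h.2 i j k hij hik hjk) α β γ hs h0

lemma cross_of_X {n : ℕ} {P : Fin n → ℝ × ℝ} (h : GenPos P) {a b c d : Fin n} (hab : a ≠ b)
    (hcd : c ≠ d) (hne : s(a, b) ≠ s(c, d)) (hX : X P a b c d) : Cross P a b c d := by
  obtain ⟨z, h1, h2⟩ := hX
  refine ⟨hab, hcd, hne, z, openSegment_subset_segment ℝ _ _ h1,
    openSegment_subset_segment ℝ _ _ h2, ?_⟩
  intro v hv _ hz
  rw [Sym2.mem_iff] at hv
  rcases hv with rfl | rfl
  · rw [hz, left_mem_openSegment_iff] at h1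
    exact hab (h.1 h1)
  · rw [hz, right_mem_openSegment_iff] at h1
    exact hab (h.1 h1)

lemma shared {n : ℕ} {P : Fin n → ℝ × ℝ} (h : GenPos P) {a b d : Fin n} (hab : a ≠ b)
    (had : a ≠ d) (hbd : b ≠ d) {z : ℝ × ℝ} (h1 : z ∈ segment ℝ (P a) (P b))
    (h2 : z ∈ segment ℝ (P a) (P d)) : z = P a := by
  obtain ⟨p, q, hp, hq, hpq, e⟩ := h1
  obtain ⟨r, s, hr, hs, hrs, f⟩ := h2
  have := gp_of h a b d hab had hbd (p - r) q (-s) (by linarith) (by
    have : (p - r) • P a + q • P b + (-s) • P d = (p • P a + q • P b) - (r • P a + s • P d) := by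
      module
    rw [this, e, f, sub_self])
  have hq0 : q = 0 := this.2.1
  have hp1 : p = 1 := by linarith
  rw [← e, hq0, hp1]; simp

lemma notin {n : ℕ} {P : Fin n → ℝ × ℝ} (h : GenPos P) {a c d : Fin n} (hac : a ≠ c)
    (had : a ≠ d) (hcd : c ≠ d) : P a ∉ segment ℝ (P c) (P d) := by
  rintro ⟨r, s, hr, hs, hrs, f⟩
  have := gp_of h a c d hac had hcd (-1) r s (by linarith) (by
    have : (-1 : ℝ) • P a + r • P c + s • P d = (r • P c + s • P d) - P a := by module
    rw [this, f, sub_self])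
  linarith [this.1]

lemma cross_iff {n : ℕ} {P : Fin n → ℝ × ℝ} (h : GenPos P) {a b c d : Fin n} :
    Cross P a b c d ↔ (a ≠ b ∧ c ≠ d ∧ a ≠ c ∧ a ≠ d ∧ b ≠ c ∧ b ≠ d) ∧ X P a b c d := by
  constructor
  · rintro ⟨hab, hcd, hne, z, h1, h2, h3⟩
    have hac : a ≠ c := by
      rintro rfl
      have hbd : b ≠ d := by rintro rfl; exact hne rfl
      exact h3 a (Sym2.mem_mk_left _ _) (Sym2.mem_mk_left _ _) (shared h hab hcd hbd h1 h2)
    have had : a ≠ d := by
      rintro rfl
      have hbc : b ≠ c := by rintro rfl; exact hne Sym2.eq_swap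
      rw [segment_symm] at h2
      exact h3 a (Sym2.mem_mk_left _ _) (Sym2.mem_mk_right _ _) (shared h hab hcd.symm hbc h1 h2)
    have hbc : b ≠ c := by
      rintro rfl
      rw [segment_symm] at h1
      exact h3 b (Sym2.mem_mk_right _ _) (Sym2.mem_mk_left _ _) (shared h hab.symm hcd had h1 h2)
    have hbd : b ≠ d := by
      rintro rfl
      rw [segment_symm] at h1 h2
      exact h3 b (Sym2.mem_mk_right _ _) (Sym2.mem_mk_right _ _)
        (shared h hab.symm hcd.symm hac h1 h2)
    refine ⟨⟨hab, hcd, hac, had, hbc, hbd⟩, z, ?_, ?_⟩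
    · apply mem_openSegment_of_ne_left_right _ _ h1
      · rintro rfl; exact notin h hac had hcd h2
      · rintro rfl; exact notin h hbc hbd hcd h2
    · apply mem_openSegment_of_ne_left_right _ _ h2
      · rintro rfl; exact notin h hac.symm hbc.symm hab h1
      · rintro rfl; exact notin h had.symm hbd.symm hab h1
  · rintro ⟨⟨hab, hcd, hac, had, hbc, hbd⟩, hX⟩
    apply cross_of_X h hab hcd _ hX
    intro he
    rw [Sym2.eq_iff] at he
    rcases he with ⟨h1, _⟩ | ⟨h1, _⟩
    · exact hac h1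
    · exact had h1

/-- the shear `(x, y) ↦ (x + ε y, y)` -/
noncomputable def shear (ε : ℝ) : (ℝ × ℝ) ≃ₗ[ℝ] (ℝ × ℝ) where
  toFun z := (z.1 + ε * z.2, z.2)
  invFun z := (z.1 - ε * z.2, z.2)
  map_add' z w := by ext <;> simp; ring
  map_smul' c z := by ext <;> simp; ring
  left_inv z := by ext <;> simp
  right_inv z := by ext <;> simp

lemma shear_os (ε : ℝ) (a b : ℝ × ℝ) :
    shear ε '' openSegment ℝ a b = openSegment ℝ (shear ε a) (shear ε b) :=
  image_openSegment ℝ ((shear ε : (ℝ × ℝ) →ₗ[ℝ] (ℝ × ℝ)).toAffineMap) a b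

lemma exists_shear {n : ℕ} {P : Fin n → ℝ × ℝ} (h : Function.Injective P) :
    ∃ ε : ℝ, Function.Injective fun i => (shear ε (P i)).1 := by
  have hfin : (⋃ ij : Fin n × Fin n, {ε : ℝ | ij.1 ≠ ij.2 ∧
      (P ij.1).1 + ε * (P ij.1).2 = (P ij.2).1 + ε * (P ij.2).2}).Finite := by
    apply Set.finite_iUnion
    rintro ⟨i, j⟩
    by_cases hij : i = j
    · simp [hij]
    by_cases hy : (P i).2 = (P j).2
    · have hx : (P i).1 ≠ (P j).1 := fun hx => hij (h (Prod.ext hx hy))
      apply Set.Finite.subset Set.finite_empty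
      rintro ε ⟨_, he⟩
      rw [hy] at he
      exact hx (by linarith)
    · apply Set.Finite.subset (Set.finite_singleton (((P j).1 - (P i).1) / ((P i).2 - (P j).2)))
      rintro ε ⟨_, he⟩
      rw [Set.mem_singleton_iff, eq_div_iff (sub_ne_zero.mpr hy)]
      simp only at he
      linarith
  obtain ⟨ε, hε⟩ := hfin.exists_notMem
  refine ⟨ε, ?_⟩
  intro i j hij
  by_contra hne
  apply hε
  rw [Set.mem_iUnion]
  exact ⟨(i, j), hne, hij⟩

/-- upper bound for plane edge sets -/
lemma upper {n : ℕ} {A : Fin n → ℝ × ℝ} (hA : GenPos A) (hn : 2 ≤ n) {T : Finset (Sym2 (Fin n))}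
    (hT1 : ∀ p q, s(p, q) ∈ T → p ≠ q)
    (hT2 : ∀ p q r s, s(p, q) ∈ T → s(r, s) ∈ T → ¬ Cross A p q r s) :
    T.card + hull A + 3 ≤ 3 * n := by
  classical
  obtain ⟨ε, hε⟩ := exists_shear hA.1
  let P : Fin n → ℝ × ℝ := fun i => shear ε (A i)
  have hPos : ∀ v a, openSegment ℝ (P v) (P a) = shear ε '' openSegment ℝ (A v) (A a) :=
    fun v a => (shear_os ε (A v) (A a)).symm
  let E : Finset (Fin n × Fin n) :=
    Finset.univ.filter fun e => (P e.1).1 < (P e.2).1 ∧ s(e.1, e.2) ∈ T
  have hE : ∀ e ∈ E, (P e.1).1 < (P e.2).1 := fun e he => (Finset.mem_filter.mp he).2.1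
  have hET : ∀ e ∈ E, s(e.1, e.2) ∈ T := fun e he => (Finset.mem_filter.mp he).2.2
  have hd : ∀ e ∈ E, ∀ f ∈ E, e ≠ f → ∀ z, z ∈ openSegment ℝ (P e.1) (P e.2) →
      z ∉ openSegment ℝ (P f.1) (P f.2) := by
    rintro ⟨v, a⟩ he ⟨w, b⟩ hf hne z hz hz'
    rw [hPos] at hz hz'
    obtain ⟨z0, hz0, rfl⟩ := hz
    obtain ⟨z1, hz1, hzz⟩ := hz'
    have : z1 = z0 := (shear ε).injective hzz
    subst this
    have h1 := hE _ he
    have h2 := hE _ hf
    have hva : v ≠ a := by rintro rfl; exact lt_irrefl _ h1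
    have hwb : w ≠ b := by rintro rfl; exact lt_irrefl _ h2
    apply hT2 v a w b (hET _ he) (hET _ hf)
    apply cross_of_X hA hva hwb _ ⟨z1, hz0, hz1⟩
    intro hs
    rw [Sym2.eq_iff] at hs
    rcases hs with ⟨rfl, rfl⟩ | ⟨rfl, rfl⟩
    · exact hne rfl
    · exact absurd h1 (not_lt.mpr h2.le)
  have hv : ∀ e ∈ E, ∀ k, P k ∉ openSegment ℝ (P e.1) (P e.2) := by
    rintro ⟨v, a⟩ he k hk
    rw [hPos] at hk
    obtain ⟨z0, hz0, hz1⟩ := hk
    have : z0 = A k := (shear ε).injective hz1
    subst this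
    have h1 := hE _ he
    have hva : v ≠ a := by rintro rfl; exact lt_irrefl _ h1
    by_cases hkv : k = v
    · subst hkv
      rw [left_mem_openSegment_iff] at hz0
      exact hva (hA.1 hz0)
    by_cases hka : k = a
    · subst hka
      rw [right_mem_openSegment_iff] at hz0
      exact hva (hA.1 hz0)
    exact notin hA hkv hka hva (openSegment_subset_segment ℝ _ _ hz0)
  let H : Finset (Fin n) :=
    Finset.univ.filter fun i => A i ∈ (convexHull ℝ (Set.range A)).extremePoints ℝ
  have hHc : H.card = hull A := by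
    unfold hull
    rw [Set.ncard_eq_toFinset_card']
    congr 1
    ext i
    simp [H]
  have hrange : Set.range P = shear ε '' Set.range A := by
    rw [← Set.range_comp]; rfl
  have hH : ∀ i ∈ H, P i ∈ (convexHull ℝ (Set.range P)).extremePoints ℝ := by
    intro i hi
    have hi' := (Finset.mem_filter.mp hi).2
    have e1 : convexHull ℝ (Set.range P) = shear ε '' convexHull ℝ (Set.range A) := by
      rw [hrange]
      exact (LinearMap.image_convexHull (shear ε : (ℝ × ℝ) →ₗ[ℝ] (ℝ × ℝ)) (Set.range A)).symm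
    rw [e1, ← image_extremePoints]
    exact ⟨A i, hi', rfl⟩
  have hsw := sweep (P := P) (E := E) hε hE hd hv (by simpa using hn) H hH
  have hTE : T.card ≤ E.card := by
    have : T ⊆ E.image fun e => s(e.1, e.2) := by
      intro e
      induction e using Sym2.ind with
      | _ p q =>
        intro hpq
        have hne := hT1 p q hpq
        rw [Finset.mem_image]
        rcases lt_or_gt_of_ne (fun h => hne (hε h) : (P p).1 ≠ (P q).1) with h | h
        · exact ⟨(p, q), Finset.mem_filter.mpr ⟨Finset.mem_univ _, h, hpq⟩, rfl⟩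
        · refine ⟨(q, p), Finset.mem_filter.mpr ⟨Finset.mem_univ _, h, ?_⟩, Sym2.eq_swap⟩
          rw [Sym2.eq_swap]; exact hpq
    exact (Finset.card_le_card this).trans Finset.card_image_le
  rw [hHc, Fintype.card_fin] at hsw
  omega

lemma ext_extreme {s : Set (ℝ × ℝ)} {x : ℝ × ℝ} (hx : x ∉ convexHull ℝ s) :
    x ∈ (convexHull ℝ (insert x s)).extremePoints ℝ := by
  rw [(convex_convexHull ℝ _).mem_extremePoints_iff_convex_sdiff]
  refine ⟨subset_convexHull ℝ _ (Set.mem_insert _ _), ?_⟩
  rcases s.eq_empty_or_nonempty with rfl | hs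
  · simp [convex_empty]
  have key : ∀ z ∈ convexHull ℝ (insert x s) \ {x}, ∃ t : ℝ, 0 < t ∧ t ≤ 1 ∧
      ∃ c ∈ convexHull ℝ s, z = (1 - t) • x + t • c := by
    rintro z ⟨hz, hzx⟩
    rw [convexHull_insert hs, mem_convexJoin] at hz
    obtain ⟨x', hx', c, hc, a, b, ha, hb, hab, rfl⟩ := hz
    rw [Set.mem_singleton_iff] at hx'
    subst hx'
    refine ⟨b, ?_, by linarith, c, hc, by rw [show a = 1 - b by linarith]⟩
    apply lt_of_le_of_ne hb
    intro h0
    apply hzx
    rw [← h0] at hab ⊢
    rw [show a = 1 by linarith]; simp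
  intro z hz w hw a b ha hb hab
  refine ⟨convex_convexHull ℝ _ hz.1 hw.1 ha hb hab, ?_⟩
  obtain ⟨t, ht0, ht1, c, hc, e1⟩ := key z hz
  obtain ⟨r, hr0, hr1, d, hd, e2⟩ := key w hw
  intro hcon
  rw [Set.mem_singleton_iff] at hcon
  have hpos : 0 < a * t + b * r := by
    rcases eq_or_lt_of_le ha with h | h
    · rw [← h] at hab ⊢
      rw [show b = 1 by linarith]; linarith
    · have := mul_pos h ht0
      have := mul_nonneg hb hr0.le
      linarith
  apply hx
  have hxx : x = (a * t / (a * t + b * r)) • c + (b * r / (a * t + b * r)) • d := by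
    have h1 : (a * t + b * r) • x = (a * t) • c + (b * r) • d := by
      have h2 : a • z + b • w = (a + b) • x + ((a * t) • c + (b * r) • d - (a * t + b * r) • x) := by
        rw [e1, e2]; module
      rw [hcon, hab, one_smul] at h2
      have h3 : (a * t) • c + (b * r) • d - (a * t + b * r) • x = 0 := by
        have := h2.symm
        simpa using this
      exact (sub_eq_zero.mp h3).symm
    have h4 : x = (a * t + b * r)⁻¹ • ((a * t + b * r) • x) := by
      rw [smul_smul, inv_mul_cancel₀ hpos.ne', one_smul]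
    rw [h1] at h4
    rw [div_eq_mul_inv, div_eq_mul_inv]
    conv_lhs => rw [h4]
    module
  rw [hxx]
  apply convex_convexHull ℝ _ hc hd
  · exact div_nonneg (mul_nonneg ha ht0.le) hpos.le
  · exact div_nonneg (mul_nonneg hb hr0.le) hpos.le
  · rw [← add_div, div_self hpos.ne']

lemma hc_le_hull {n : ℕ} (B : Fin n → ℝ × ℝ) : hc B Finset.univ ≤ hull B := by
  classical
  unfold hc hull
  rw [Set.ncard_eq_toFinset_card']
  apply Finset.card_le_card
  intro i hi
  have hi' := (Finset.mem_filter.mp hi).2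
  rw [Set.mem_toFinset]
  have h1 := ext_extreme hi'
  have h2 : insert (B i) (B '' (((Finset.univ.erase i : Finset (Fin n))) : Set (Fin n))) =
      Set.range B := by
    rw [← Set.image_insert_eq, ← Finset.coe_insert, Finset.insert_erase (Finset.mem_univ i)]
    simp
  rw [h2] at h1
  exact h1

/-- a quadruple crossing in `B` but not in `A` whose hull in `B` contains no further point -/
lemma minimal {n : ℕ} {A B : Fin n → ℝ × ℝ} (hB : GenPos B)
    (N : ℕ) : ∀ a b c d : Fin n, Cross B a b c d → ¬ X A a b c d →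
      {i | B i ∈ convexHull ℝ ({B a, B b, B c, B d} : Set (ℝ × ℝ))}.ncard ≤ N →
      ∃ a b c d : Fin n, Cross B a b c d ∧ ¬ X A a b c d ∧
        ∀ x, x ≠ a → x ≠ b → x ≠ c → x ≠ d →
          B x ∉ convexHull ℝ ({B a, B b, B c, B d} : Set (ℝ × ℝ)) := by
  induction N with
  | zero =>
    intro a b c d _ _ hcard
    exfalso
    have h0 := Nat.le_zero.mp hcard
    rw [Set.ncard_eq_zero] at h0
    have : a ∈ {i | B i ∈ convexHull ℝ ({B a, B b, B c, B d} : Set (ℝ × ℝ))} :=
      subset_convexHull ℝ _ (by simp)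
    rw [h0] at this
    exact this
  | succ N ih =>
    -- the move to a smaller quadruple
    have move : ∀ a b c d x : Fin n, (a ≠ b ∧ c ≠ d ∧ a ≠ c ∧ a ≠ d ∧ b ≠ c ∧ b ≠ d) →
        x ≠ a → x ≠ b → x ≠ c → x ≠ d → X B a b c d →
        B x ∈ convexHull ℝ ({B a, B b, B c, B d} : Set (ℝ × ℝ)) → ¬ X A a b c d →
        X B x b c d → X B x d a b →
        {i | B i ∈ convexHull ℝ ({B a, B b, B c, B d} : Set (ℝ × ℝ))}.ncard ≤ N + 1 →
        ∃ a b c d : Fin n, Cross B a b c d ∧ ¬ X A a b c d ∧
        ∀ x, x ≠ a → x ≠ b → x ≠ c → x ≠ d →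
          B x ∉ convexHull ℝ ({B a, B b, B c, B d} : Set (ℝ × ℝ)) := by
      rintro a b c d x ⟨hab, hcd, hac, had, hbc, hbd⟩ hxa hxb hxc hxd hX hx hnA h1 h2 hcard
      have hPB := gp_of hB
      -- a vertex of the quadrilateral is not in the hull of x and the three others
      have small : ∀ a b c d : Fin n, x ≠ a →
          B a ∉ convexHull ℝ ({B b, B c, B d} : Set (ℝ × ℝ)) →
          B x ∈ convexHull ℝ ({B a, B b, B c, B d} : Set (ℝ × ℝ)) →
          ({B x, B b, B c, B d} : Set (ℝ × ℝ)) ⊆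
            convexHull ℝ ({B a, B b, B c, B d} : Set (ℝ × ℝ)) ∧
          B a ∉ convexHull ℝ ({B x, B b, B c, B d} : Set (ℝ × ℝ)) := by
        intro a b c d hxa hne hx
        have hsub3 : ({B b, B c, B d} : Set (ℝ × ℝ)) ⊆
            convexHull ℝ ({B a, B b, B c, B d} : Set (ℝ × ℝ)) :=
          (Set.subset_insert _ _).trans (subset_convexHull ℝ _)
        refine ⟨Set.insert_subset hx hsub3, ?_⟩
        have hext := ext_extreme hne
        rw [(convex_convexHull ℝ _).mem_extremePoints_iff_convex_sdiff] at hext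
        intro hcon
        have hsub : ({B x, B b, B c, B d} : Set (ℝ × ℝ)) ⊆
            convexHull ℝ ({B a, B b, B c, B d} : Set (ℝ × ℝ)) \ {B a} := by
          apply Set.insert_subset
          · exact ⟨hx, fun h => hxa (hB.1 h)⟩
          · intro y hy
            refine ⟨hsub3 hy, ?_⟩
            rintro h
            rw [Set.mem_singleton_iff] at h
            rw [h] at hy
            exact hne (subset_convexHull ℝ _ hy)
        exact (convexHull_min hsub hext.2 hcon).2 rfl
      have count : ∀ (s t : Set (ℝ × ℝ)) (a : Fin n), s ⊆ convexHull ℝ t → B a ∈ convexHull ℝ t →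
          B a ∉ convexHull ℝ s → {i | B i ∈ convexHull ℝ t}.ncard ≤ N + 1 →
          {i | B i ∈ convexHull ℝ s}.ncard ≤ N := by
        intro s t a hst ha hna hc
        have : {i | B i ∈ convexHull ℝ s}.ncard < {i | B i ∈ convexHull ℝ t}.ncard := by
          apply Set.ncard_lt_ncard _ (Set.toFinite _)
          refine ⟨fun i hi => convexHull_min hst (convex_convexHull ℝ _) hi, ?_⟩
          intro h
          exact hna (h ha)
        omega
      by_cases hA1 : X A x b c d
      · by_cases hA2 : X A x d a b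
        · exact absurd (cevians hA1 hA2) hnA
        · -- drop c
          have hc : B c ∉ convexHull ℝ ({B d, B a, B b} : Set (ℝ × ℝ)) :=
            quad_ext hPB had.symm hbd.symm hab hX.swap
          have hset : ({B a, B b, B c, B d} : Set (ℝ × ℝ)) = {B c, B d, B a, B b} := by
            ext y; simp only [Set.mem_insert_iff, Set.mem_singleton_iff]; tauto
          have hx' := hx
          rw [hset] at hx' hcard
          obtain ⟨g1, g2⟩ := small c d a b hxc hc hx'
          apply ih x d a b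
          · exact (cross_iff hB).mpr ⟨⟨hxd, hab, hxa, hxb, had.symm, hbd.symm⟩, h2⟩
          · exact hA2
          · exact count _ _ c g1 (subset_convexHull ℝ _ (by simp)) g2 hcard
      · have ha : B a ∉ convexHull ℝ ({B b, B c, B d} : Set (ℝ × ℝ)) :=
          quad_ext hPB hbc hbd hcd hX
        obtain ⟨g1, g2⟩ := small a b c d hxa ha hx
        apply ih x b c d
        · exact (cross_iff hB).mpr ⟨⟨hxb, hcd, hxc, hxd, hbc, hbd⟩, h1⟩
        · exact hA1
        · exact count _ _ a g1 (subset_convexHull ℝ _ (by simp)) g2 hcard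
    intro a b c d hcr hnA hcard
    obtain ⟨⟨hab, hcd, hac, had, hbc, hbd⟩, hX⟩ := (cross_iff hB).mp hcr
    by_cases hemp : ∀ x, x ≠ a → x ≠ b → x ≠ c → x ≠ d →
        B x ∉ convexHull ℝ ({B a, B b, B c, B d} : Set (ℝ × ℝ))
    · exact ⟨a, b, c, d, hcr, hnA, hemp⟩
    push Not at hemp
    obtain ⟨x, hxa, hxb, hxc, hxd, hx⟩ := hemp
    have s1 : ({B a, B b, B c, B d} : Set (ℝ × ℝ)) = {B b, B a, B c, B d} := by
      ext y; simp only [Set.mem_insert_iff, Set.mem_singleton_iff]; tauto
    have s2 : ({B a, B b, B c, B d} : Set (ℝ × ℝ)) = {B a, B b, B d, B c} := by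
      ext y; simp only [Set.mem_insert_iff, Set.mem_singleton_iff]; tauto
    have s3 : ({B a, B b, B c, B d} : Set (ℝ × ℝ)) = {B b, B a, B d, B c} := by
      ext y; simp only [Set.mem_insert_iff, Set.mem_singleton_iff]; tauto
    rcases locate (gp_of hB) hab hcd hxa hxb hxc hxd hX hx with h | h | h | h
    · exact move a b c d x ⟨hab, hcd, hac, had, hbc, hbd⟩ hxa hxb hxc hxd hX hx hnA h.1 h.2 hcard
    · exact move b a c d x ⟨hab.symm, hcd, hbc, hbd, hac, had⟩ hxb hxa hxc hxd hX.symm1
        (s1 ▸ hx) (fun h' => hnA h'.symm1) h.1 h.2 (s1 ▸ hcard)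
    · exact move a b d c x ⟨hab, hcd.symm, had, hac, hbd, hbc⟩ hxa hxb hxd hxc hX.symm2
        (s2 ▸ hx) (fun h' => hnA h'.symm2) h.1 h.2 (s2 ▸ hcard)
    · exact move b a d c x ⟨hab.symm, hcd.symm, hbd, hbc, had, hac⟩ hxb hxa hxd hxc hX.symm1.symm2
        (s3 ▸ hx) (fun h' => hnA h'.symm1.symm2) h.1 h.2 (s3 ▸ hcard)

theorem core {n : ℕ} {A B : Fin n → ℝ × ℝ} (hA : GenPos A) (hB : GenPos B)
    (hAB : ∀ a b c d, Cross A a b c d → Cross B a b c d)
    (hne : ∃ a b c d, Cross B a b c d ∧ ¬ Cross A a b c d) : hull A < hull B := by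
  classical
  obtain ⟨a0, b0, c0, d0, h1, h2⟩ := hne
  have h2' : ¬ X A a0 b0 c0 d0 := fun h => h2 ((cross_iff hA).mpr ⟨((cross_iff hB).mp h1).1, h⟩)
  obtain ⟨a, b, c, d, hcr, hnA, hemp⟩ := minimal (A := A) hB _ a0 b0 c0 d0 h1 h2' le_rfl
  obtain ⟨⟨hab, hcd, hac, had, hbc, hbd⟩, hX⟩ := (cross_iff hB).mp hcr
  have hPB := gp_of hB
  let F : Finset (Fin n) := {a, b, c, d}
  have hF4 : F.card = 4 := by
    simp only [F]
    rw [Finset.card_insert_of_notMem, Finset.card_insert_of_notMem, Finset.card_insert_of_notMem,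
      Finset.card_singleton]
    · simp [hcd]
    · simp [hbc, hbd]
    · simp [hab, hac, had]
  have hn4 : 4 ≤ n := by
    have := Finset.card_le_univ F
    rw [hF4, Fintype.card_fin] at this
    exact this
  have hFi : B '' (F : Set (Fin n)) = {B a, B b, B c, B d} := by
    simp [F, Set.image_insert_eq]
  have hExt : ∀ i ∈ F, Ext B F i := by
    have aux : ∀ p q r s : Fin n, (∀ x ∈ F, x ≠ p → x = q ∨ x = r ∨ x = s) →
        B p ∉ convexHull ℝ ({B q, B r, B s} : Set (ℝ × ℝ)) → Ext B F p := by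
      intro p q r s h1 h2 h3
      apply h2
      apply convexHull_mono _ h3
      rintro _ ⟨x, hx, rfl⟩
      have hx' := Finset.mem_erase.mp (Finset.mem_coe.mp hx)
      rcases h1 x hx'.2 hx'.1 with rfl | rfl | rfl <;> simp
    intro i hi
    have hi' : i = a ∨ i = b ∨ i = c ∨ i = d := by simpa [F] using hi
    rcases hi' with rfl | rfl | rfl | rfl
    · apply aux _ b c d
      · intro x hx hxi
        have : x = i ∨ x = b ∨ x = c ∨ x = d := by simpa [F] using hx
        tauto
      · exact quad_ext hPB hbc hbd hcd hX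
    · apply aux _ a c d
      · intro x hx hxi
        have : x = a ∨ x = i ∨ x = c ∨ x = d := by simpa [F] using hx
        tauto
      · exact quad_ext hPB hac had hcd hX.symm1
    · apply aux _ d a b
      · intro x hx hxi
        have : x = a ∨ x = b ∨ x = i ∨ x = d := by simpa [F] using hx
        tauto
      · exact quad_ext hPB had.symm hbd.symm hab hX.swap
    · apply aux _ c a b
      · intro x hx hxi
        have : x = a ∨ x = b ∨ x = c ∨ x = i := by simpa [F] using hx
        tauto
      · exact quad_ext hPB hac.symm hbc.symm hab hX.swap.symm1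
  have hFc : 4 ≤ hc B F := by
    unfold hc
    rw [Finset.filter_true_of_mem hExt, hF4]
  obtain ⟨T, hT1, hT2, hT3⟩ := peel hB.1 hPB hF4 hFc n Finset.univ (by simp)
    (Finset.subset_univ _) (by
      intro i _ hi
      rw [hFi]
      have hi' : ¬ (i = a ∨ i = b ∨ i = c ∨ i = d) := by simpa [F] using hi
      push Not at hi'
      exact hemp i hi'.1 hi'.2.1 hi'.2.2.1 hi'.2.2.2)
  have hup : T.card + hull A + 3 ≤ 3 * n := by
    apply upper hA (by omega)
    · intro p q h
      exact (hT1 p q h).2.2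
    · intro p q r s hpq hrs hcA
      obtain ⟨⟨npq, nrs, npr, nps, nqr, nqs⟩, hXA⟩ := (cross_iff hA).mp hcA
      have hXB := ((cross_iff hB).mp (hAB _ _ _ _ hcA)).2
      obtain ⟨mp, mq, mr, ms⟩ := hT2 p q r s hpq hrs npr nps nqr nqs hXB
      -- the three pairings
      have u1 : ¬ X B a c b d := X_unique hPB hbc hbd hcd hX
      have u2 : ¬ X B a d b c := X_unique hPB hbd hbc hcd.symm hX.symm2
      have norm : ∀ (P : Fin n → ℝ × ℝ) (a b c d : Fin n), ¬ X P a b c d →
          ¬ X P b a c d ∧ ¬ X P a b d c ∧ ¬ X P b a d c ∧ ¬ X P c d a b ∧ ¬ X P c d b a ∧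
          ¬ X P d c a b ∧ ¬ X P d c b a := by
        intro P a b c d h
        exact ⟨fun h' => h h'.symm1, fun h' => h h'.symm2, fun h' => h h'.symm1.symm2,
          fun h' => h h'.swap, fun h' => h h'.swap.symm1, fun h' => h h'.swap.symm2,
          fun h' => h h'.swap.symm1.symm2⟩
      obtain ⟨v1, v2, v3, v4, v5, v6, v7⟩ := norm B _ _ _ _ u1
      obtain ⟨w1, w2, w3, w4, w5, w6, w7⟩ := norm B _ _ _ _ u2
      obtain ⟨t1, t2, t3, t4, t5, t6, t7⟩ := norm A _ _ _ _ hnA
      have mp' : p = a ∨ p = b ∨ p = c ∨ p = d := by simpa [F] using mp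
      have mq' : q = a ∨ q = b ∨ q = c ∨ q = d := by simpa [F] using mq
      have mr' : r = a ∨ r = b ∨ r = c ∨ r = d := by simpa [F] using mr
      have ms' : s = a ∨ s = b ∨ s = c ∨ s = d := by simpa [F] using ms
      clear hT1 hT2 hT3 hcA mp mq mr ms hpq hrs hExt hFc hFi
      rcases mp' with e1 | e1 | e1 | e1 <;> rcases mq' with e2 | e2 | e2 | e2 <;>
        first
        | exact npq (e1.trans e2.symm)
        | (rcases mr' with e3 | e3 | e3 | e3 <;>
            first
            | exact npr (e1.trans e3.symm)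
            | exact nqr (e2.trans e3.symm)
            | (rcases ms' with e4 | e4 | e4 | e4 <;>
                first
                | exact nps (e1.trans e4.symm)
                | exact nqs (e2.trans e4.symm)
                | exact nrs (e3.trans e4.symm)
                | (rw [e1, e2, e3, e4] at hXA hXB; contradiction)))
  have hhc := hc_le_hull B
  rw [Finset.card_univ, Fintype.card_fin] at hT3
  omega

/-- If `A ≺ B` in the geometric homomorphism order of the realizations of `K_n`, then the convex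
hull of `A` has fewer vertices than the convex hull of `B`. -/
theorem result (n : ℕ) (A B : Fin n → ℝ × ℝ) (hA : GenPos A) (hB : GenPos B) (h : Prec A B) :
    hull A < hull B := by
  obtain ⟨⟨f, hf, -, hhom⟩, hiso⟩ := h
  have hbij : Function.Bijective f := Finite.injective_iff_bijective.mp hf
  have hBf : GenPos (B ∘ f) :=
    ⟨hB.1.comp hf, fun i j k hij hik hjk => hB.2 (f i) (f j) (f k) (fun h => hij (hf h))
      (fun h => hik (hf h)) (fun h => hjk (hf h))⟩
  have hcross : ∀ x y u v, Cross (B ∘ f) x y u v ↔ Cross B (f x) (f y) (f u) (f v) := by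
    intro x y u v
    rw [cross_iff hBf, cross_iff hB]
    simp only [ne_eq, hf.eq_iff]
    exact Iff.rfl
  have hhull : hull (B ∘ f) = hull B := by
    unfold hull
    have hr : Set.range (B ∘ f) = Set.range B := hbij.2.range_comp B
    rw [hr]
    have : {i | B i ∈ (convexHull ℝ (Set.range B)).extremePoints ℝ} =
        f '' {i | (B ∘ f) i ∈ (convexHull ℝ (Set.range B)).extremePoints ℝ} := by
      ext j
      constructor
      · intro hj
        obtain ⟨i, rfl⟩ := hbij.2 j
        exact ⟨i, hj, rfl⟩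
      · rintro ⟨i, hi, rfl⟩
        exact hi
    rw [this, Set.ncard_image_of_injective _ hf]
  rw [← hhull]
  apply core hA hBf
  · intro a b c d hc
    exact (hcross a b c d).mpr (hhom a b c d hc)
  · by_contra hcon
    push Not at hcon
    apply hiso
    refine ⟨f, hbij, fun x y u v => ⟨hhom x y u v, fun hc => ?_⟩⟩
    exact hcon x y u v ((hcross x y u v).mpr hc)

end Pool.Agent.Results.MP_1038e0_co.HullStrict
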